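import Mathlib

/-!
# Practical stabilization entropy can be strictly smaller than stabilization entropy

For the polynomial system `s' = -s`, `y' = 0`, `z' = s (u - y)` on `ℝ³` with `U = [0,1]`,
`Γ = {(1,y,0)}`, `Λ = {(0,y,0)}` (`0 ≤ y ≤ 1`) and `ζ(r,t) = r e^{-t}` the system is stabilizable,
the practical stabilization entropy is `0` and the stabilization entropy is `1`.
-/

namespace Pool.Agent.Results.MP_395e41_an.EntropyGap

open MeasureTheory Filter Topology Set Metric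
open scoped ENNReal

/-- Euclidean space `ℝⁿ`. -/
abbrev E (n : ℕ) := EuclideanSpace ℝ (Fin n)

variable {d m : ℕ}

/-- Admissible controls: measurable with `u(t) ∈ U` for almost every `t > 0`
(essentially bounded when `U` is compact). -/
def Admissible (U : Set (E m)) (u : ℝ → E m) : Prop :=
  Measurable u ∧ ∀ᵐ t : ℝ, 0 < t → u t ∈ U

/-- (Carathéodory) solutions of `x' = f(x,u)` on `[0,∞)`. -/
def IsSolution (f : E d → E m → E d) (u : ℝ → E m) (x : ℝ → E d) : Prop :=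
  (∀ T, 0 ≤ T → AbsolutelyContinuousOnInterval x 0 T) ∧
    ∀ᵐ t : ℝ, 0 < t → HasDerivAt x (f (x t) (u t)) t

/-- `φ` is the solution map of `x' = f(x,u)`: solutions exist, are unique and depend
continuously on the initial state. -/
structure IsSolutionMap (f : E d → E m → E d) (U : Set (E m))
    (φ : ℝ → E d → (ℝ → E m) → E d) : Prop where
  isSolution : ∀ x₀ u, Admissible U u → IsSolution f u fun t => φ t x₀ u
  initial : ∀ x₀ u, Admissible U u → φ 0 x₀ u = x₀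
  unique : ∀ x₀ u x, Admissible U u → IsSolution f u x → x 0 = x₀ → ∀ t, 0 ≤ t → x t = φ t x₀ u
  continuous : ∀ u, Admissible U u → ∀ t, 0 ≤ t → Continuous fun x₀ => φ t x₀ u

/-- `𝒦ℒ`-functions on `[0,∞)²`. -/
structure IsKL (ζ : ℝ → ℝ → ℝ) : Prop where
  continuousOn : ContinuousOn (fun p : ℝ × ℝ => ζ p.1 p.2) (Ici 0 ×ˢ Ici 0)
  nonneg : ∀ r s, 0 ≤ r → 0 ≤ s → 0 ≤ ζ r s
  zero : ∀ s, 0 ≤ s → ζ 0 s = 0
  strictMono : ∀ s, 0 ≤ s → StrictMonoOn (fun r => ζ r s) (Ici 0)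
  strictAnti : ∀ r, 0 < r → StrictAntiOn (fun s => ζ r s) (Ici 0)
  tendsto : ∀ r, 0 ≤ r → Tendsto (fun s => ζ r s) atTop (𝓝 0)

/-- The system is stabilizable for `ζ, Γ, Λ`. -/
def IsStabilizable (U : Set (E m)) (φ : ℝ → E d → (ℝ → E m) → E d) (ζ : ℝ → ℝ → ℝ)
    (Γ Λ : Set (E d)) : Prop :=
  ∀ x₀ ∈ Γ, ∃ u, Admissible U u ∧ ∀ t, 0 ≤ t → infDist (φ t x₀ u) Λ ≤ ζ (infDist x₀ Λ) t

/-- Spanning sets for `τ, ε`. -/
def IsSpanning (U : Set (E m)) (φ : ℝ → E d → (ℝ → E m) → E d) (ζ : ℝ → ℝ → ℝ)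
    (Γ Λ : Set (E d)) (τ ε : ℝ) (S : Set (ℝ → E m)) : Prop :=
  (∀ u ∈ S, Admissible U u) ∧ ∀ x₀ ∈ Γ, ∃ u ∈ S, ∀ t ∈ Icc 0 τ,
    infDist (φ t x₀ u) Λ ≤ ζ (infDist x₀ Λ + ε) t

/-- Practically spanning sets for `τ, ε`. -/
def IsPracticallySpanning (U : Set (E m)) (φ : ℝ → E d → (ℝ → E m) → E d) (ζ : ℝ → ℝ → ℝ)
    (Γ Λ : Set (E d)) (τ ε : ℝ) (S : Set (ℝ → E m)) : Prop :=
  (∀ u ∈ S, Admissible U u) ∧ ∀ x₀ ∈ Γ, ∃ u ∈ S, ∀ t ∈ Icc 0 τ,
    infDist (φ t x₀ u) Λ ≤ ζ (infDist x₀ Λ + ε) t + ε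

/-- `r_s(τ,ε)`: minimal cardinality of a spanning set. -/
noncomputable def rS (U : Set (E m)) (φ : ℝ → E d → (ℝ → E m) → E d) (ζ : ℝ → ℝ → ℝ)
    (Γ Λ : Set (E d)) (τ ε : ℝ) : ℕ∞ :=
  ⨅ (S : Set (ℝ → E m)) (_ : IsSpanning U φ ζ Γ Λ τ ε S), S.encard

/-- `r_ps(τ,ε)`: minimal cardinality of a practically spanning set. -/
noncomputable def rPS (U : Set (E m)) (φ : ℝ → E d → (ℝ → E m) → E d) (ζ : ℝ → ℝ → ℝ)
    (Γ Λ : Set (E d)) (τ ε : ℝ) : ℕ∞ :=
  ⨅ (S : Set (ℝ → E m)) (_ : IsPracticallySpanning U φ ζ Γ Λ τ ε S), S.encard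

/-- `h_s(ε)`. -/
noncomputable def hS (U : Set (E m)) (φ : ℝ → E d → (ℝ → E m) → E d) (ζ : ℝ → ℝ → ℝ)
    (Γ Λ : Set (E d)) (ε : ℝ) : EReal :=
  limsup (fun τ : ℝ => ENNReal.log ((rS U φ ζ Γ Λ τ ε : ℕ∞) : ℝ≥0∞) / (τ : EReal)) atTop

/-- `h_ps(ε)`. -/
noncomputable def hPS (U : Set (E m)) (φ : ℝ → E d → (ℝ → E m) → E d) (ζ : ℝ → ℝ → ℝ)
    (Γ Λ : Set (E d)) (ε : ℝ) : EReal :=
  limsup (fun τ : ℝ => ENNReal.log ((rPS U φ ζ Γ Λ τ ε : ℕ∞) : ℝ≥0∞) / (τ : EReal)) atTop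

/-! ### The example -/

/-- The vector field `f(s,y,z;u) = (-s, 0, s (u - y))`. -/
noncomputable def fld (x : E 3) (u : E 1) : E 3 := !₂[-x 0, 0, x 0 * (u 0 - x 1)]

/-- Control range `[0,1]`. -/
def ctl : Set (E 1) := {u | u 0 ∈ Icc (0 : ℝ) 1}

/-- Initial states `(1,y,0)`, `0 ≤ y ≤ 1`. -/
def Gam : Set (E 3) := (fun y : ℝ => !₂[1, y, 0]) '' Icc 0 1

/-- Target `(0,y,0)`, `0 ≤ y ≤ 1`. -/
def Lam : Set (E 3) := (fun y : ℝ => !₂[0, y, 0]) '' Icc 0 1

/-- The solution map. -/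
noncomputable def flow (t : ℝ) (x : E 3) (u : ℝ → E 1) : E 3 :=
  !₂[x 0 * Real.exp (-t), x 1, x 2 + ∫ r in (0 : ℝ)..t, x 0 * Real.exp (-r) * (u r 0 - x 1)]

/-- `ζ(r,t) = r e^{-t}`. -/
noncomputable def zet (r t : ℝ) : ℝ := r * Real.exp (-t)

lemma isKL_zet : IsKL zet where
  continuousOn := by
    unfold zet
    fun_prop
  nonneg r s hr _ := mul_nonneg hr (Real.exp_pos _).le
  zero s _ := by simp [zet]
  strictMono s _ a _ b _ hab := mul_lt_mul_of_pos_right hab (Real.exp_pos _)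
  strictAnti r hr a _ b _ hab := by
    apply mul_lt_mul_of_pos_left _ hr
    exact Real.exp_lt_exp.mpr (neg_lt_neg hab)
  tendsto r _ := by
    have := (Real.tendsto_exp_neg_atTop_nhds_zero).const_mul r
    simpa [zet] using this

lemma isCompact_ctl : IsCompact ctl := by
  have : ctl = (fun a : ℝ => (!₂[a] : E 1)) '' Icc 0 1 := by
    ext u
    constructor
    · intro hu
      refine ⟨u 0, hu, ?_⟩
      ext i
      fin_cases i
      simp
    · rintro ⟨a, ha, rfl⟩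
      simpa [ctl] using ha
  rw [this]
  apply isCompact_Icc.image
  rw [show (fun a : ℝ => (!₂[a] : E 1)) = fun a : ℝ => WithLp.toLp 2 ![a] from rfl]
  fun_prop

lemma isCompact_Gam : IsCompact Gam := by
  apply isCompact_Icc.image
  fun_prop

lemma isCompact_Lam : IsCompact Lam := by
  apply isCompact_Icc.image
  fun_prop

lemma ac_apply {x : ℝ → E 3} {a b : ℝ} (h : AbsolutelyContinuousOnInterval x a b)
    (i : Fin 3) : AbsolutelyContinuousOnInterval (fun t => x t i) a b := by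
  rw [absolutelyContinuousOnInterval_iff] at h ⊢
  intro ε hε
  obtain ⟨δ, hδ, hE⟩ := h ε hε
  refine ⟨δ, hδ, fun E hEd hEs => lt_of_le_of_lt (Finset.sum_le_sum fun k _ => ?_) (hE E hEd hEs)⟩
  rw [dist_eq_norm, dist_eq_norm]
  have := PiLp.norm_apply_le (x (E.2 k).1 - x (E.2 k).2) i
  simpa using this

lemma vec_eq (a b c : ℝ) : (!₂[a, b, c] : E 3) =
    a • (!₂[1, 0, 0] : E 3) + b • (!₂[0, 1, 0] : E 3) + c • (!₂[0, 0, 1] : E 3) := by
  ext i
  fin_cases i <;> simp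

lemma ac_vec {f g h : ℝ → ℝ} {a b : ℝ} (hf : AbsolutelyContinuousOnInterval f a b)
    (hg : AbsolutelyContinuousOnInterval g a b) (hh : AbsolutelyContinuousOnInterval h a b) :
    AbsolutelyContinuousOnInterval (fun t => (!₂[f t, g t, h t] : E 3)) a b := by
  have hc : ∀ v : E 3, AbsolutelyContinuousOnInterval (fun _ : ℝ => v) a b := fun v =>
    ContDiffOn.absolutelyContinuousOnInterval contDiffOn_const
  have := ((hf.smul (hc !₂[1, 0, 0])).add (hg.smul (hc !₂[0, 1, 0]))).add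
    (hh.smul (hc !₂[0, 0, 1]))
  have e : (fun t => (!₂[f t, g t, h t] : E 3)) = ((f • fun _ => (!₂[1, 0, 0] : E 3)) +
      g • fun _ => (!₂[0, 1, 0] : E 3)) + h • fun _ => (!₂[0, 0, 1] : E 3) := by
    funext t
    rw [vec_eq]
    rfl
  rw [e]
  exact this

lemma hasDerivAt_vec {f g h : ℝ → ℝ} {f' g' h' t : ℝ} (hf : HasDerivAt f f' t)
    (hg : HasDerivAt g g' t) (hh : HasDerivAt h h' t) :
    HasDerivAt (fun t => (!₂[f t, g t, h t] : E 3)) !₂[f', g', h'] t := by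
  have := ((hf.smul_const (!₂[1, 0, 0] : E 3)).add (hg.smul_const (!₂[0, 1, 0] : E 3))).add
    (hh.smul_const (!₂[0, 0, 1] : E 3))
  rw [← vec_eq] at this
  have e : (fun t => (!₂[f t, g t, h t] : E 3)) = (((fun y => f y • (!₂[1, 0, 0] : E 3)) +
      fun y => g y • (!₂[0, 1, 0] : E 3)) + fun y => h y • (!₂[0, 0, 1] : E 3)) := by
    funext t
    rw [vec_eq]
    rfl
  rw [e]
  exact this

lemma hasDerivAt_apply {x : ℝ → E 3} {v : E 3} {t : ℝ} (h : HasDerivAt x v t) (i : Fin 3) :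
    HasDerivAt (fun t => x t i) (v i) t :=
  (EuclideanSpace.proj (𝕜 := ℝ) i).hasFDerivAt.comp_hasDerivAt t h

lemma intervalIntegrable_ctl {u : ℝ → E 1} (hu : Admissible ctl u) (c b : ℝ) {T : ℝ}
    (hT : 0 ≤ T) :
    IntervalIntegrable (fun r => c * Real.exp (-r) * (u r 0 - b)) volume 0 T := by
  rw [intervalIntegrable_iff_integrableOn_Ioc_of_le hT]
  have h0 : Measurable fun r => u r 0 := by
    have : Measurable fun v : E 1 => v 0 := (EuclideanSpace.proj (𝕜 := ℝ) (0 : Fin 1)).measurable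
    exact this.comp hu.1
  have hmeas : Measurable fun r => c * Real.exp (-r) * (u r 0 - b) :=
    ((Real.measurable_exp.comp measurable_neg).const_mul c).mul (h0.sub_const b)
  refine Measure.integrableOn_of_bounded (M := |c| * (1 + |b|)) (by simp)
    hmeas.aestronglyMeasurable ?_
  rw [ae_restrict_iff' measurableSet_Ioc]
  filter_upwards [hu.2] with r hr hrT
  have h1 := hr hrT.1
  have h2 : |u r 0| ≤ 1 := by
    rw [abs_of_nonneg h1.1]
    exact h1.2
  rw [Real.norm_eq_abs, abs_mul, abs_mul, abs_of_pos (Real.exp_pos _)]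
  have h3 : Real.exp (-r) ≤ 1 := Real.exp_le_one_iff.mpr (by linarith [hrT.1])
  have h4 : |u r 0 - b| ≤ 1 + |b| := (abs_sub _ _).trans (by linarith)
  have h5 : |c| * Real.exp (-r) ≤ |c| := by
    have := abs_nonneg c
    nlinarith
  exact mul_le_mul h5 h4 (abs_nonneg _) (abs_nonneg _)

lemma ae_hasDerivAt_int {u : ℝ → E 1} (hu : Admissible ctl u) (c b : ℝ) :
    ∀ᵐ t : ℝ, 0 < t → HasDerivAt (fun t => ∫ r in (0 : ℝ)..t, c * Real.exp (-r) * (u r 0 - b))
      (c * Real.exp (-t) * (u t 0 - b)) t := by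
  have h : ∀ n : ℕ, ∀ᵐ t : ℝ, t ∈ uIcc (0 : ℝ) n → ∀ c' ∈ uIcc (0 : ℝ) n,
      HasDerivAt (fun t => ∫ r in c'..t, c * Real.exp (-r) * (u r 0 - b))
        (c * Real.exp (-t) * (u t 0 - b)) t := fun n =>
    (intervalIntegrable_ctl hu c b (Nat.cast_nonneg n)).ae_hasDerivAt_integral
  rw [← ae_all_iff] at h
  filter_upwards [h] with t ht htp
  obtain ⟨n, hn⟩ := exists_nat_ge t
  have h0 : (0 : ℝ) ≤ n := Nat.cast_nonneg n
  refine ht n ?_ 0 ?_
  · rw [uIcc_of_le h0]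
    exact ⟨htp.le, hn⟩
  · rw [uIcc_of_le h0]
    exact ⟨le_refl _, h0⟩

lemma isSolution_flow (x₀ : E 3) {u : ℝ → E 1} (hu : Admissible ctl u) :
    IsSolution fld u fun t => flow t x₀ u := by
  constructor
  · intro T hT
    apply ac_vec
    · apply ContDiffOn.absolutelyContinuousOnInterval
      apply ContDiff.contDiffOn
      fun_prop
    · exact ContDiffOn.absolutelyContinuousOnInterval contDiffOn_const
    · apply AbsolutelyContinuousOnInterval.add
      · exact ContDiffOn.absolutelyContinuousOnInterval contDiffOn_const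
      · exact (intervalIntegrable_ctl hu (x₀ 0) (x₀ 1)
          hT).absolutelyContinuousOnInterval_intervalIntegral (by simp)
  · filter_upwards [ae_hasDerivAt_int hu (x₀ 0) (x₀ 1)] with t ht htp
    have h1 : HasDerivAt (fun t : ℝ => x₀ 0 * Real.exp (-t)) (-(x₀ 0 * Real.exp (-t))) t := by
      have := ((hasDerivAt_neg t).exp).const_mul (x₀ 0)
      exact this.congr_deriv (by ring)
    have h2 : HasDerivAt (fun _ : ℝ => x₀ 1) 0 t := hasDerivAt_const t _
    have h3 := (ht htp).const_add (x₀ 2)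
    have := hasDerivAt_vec h1 h2 h3
    refine this.congr_deriv ?_
    ext i
    fin_cases i <;> simp [fld, flow]

lemma unique_flow {x₀ : E 3} {u : ℝ → E 1} {x : ℝ → E 3} (hu : Admissible ctl u)
    (hx : IsSolution fld u x) (h0 : x 0 = x₀) (t : ℝ) (ht : 0 ≤ t) : x t = flow t x₀ u := by
  have hf := isSolution_flow x₀ hu
  have hexp : AbsolutelyContinuousOnInterval (fun t : ℝ => Real.exp t) 0 t :=
    ContDiffOn.absolutelyContinuousOnInterval (Real.contDiff_exp.contDiffOn)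
  have hmem0 : (0 : ℝ) ∈ uIcc 0 t := left_mem_uIcc
  have hmemt : t ∈ uIcc 0 t := right_mem_uIcc
  -- first component
  have e0 : ∀ s ∈ uIcc 0 t, x s 0 * Real.exp s = x₀ 0 := by
    have hac := (ac_apply (hx.1 t ht) 0).fun_mul hexp
    obtain ⟨C, hC⟩ := hac.const_of_ae_hasDerivAt_zero (by
      have hne : ∀ᵐ s : ℝ, s ≠ 0 := by
        simp [ae_iff]
      filter_upwards [hx.2, hne] with s hs hs0 hsm
      rw [uIcc_of_le ht] at hsm
      have hsp : 0 < s := lt_of_le_of_ne hsm.1 (Ne.symm hs0)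
      have h1 := hasDerivAt_apply (hs hsp) 0
      have h2 := h1.fun_mul (Real.hasDerivAt_exp s)
      refine h2.congr_deriv ?_
      simp [fld])
    intro s hs
    rw [hC s hs, ← hC 0 hmem0, h0]
    simp
  have e0' : ∀ s ∈ uIcc 0 t, x s 0 = x₀ 0 * Real.exp (-s) := by
    intro s hs
    rw [← e0 s hs, mul_assoc, ← Real.exp_add]
    simp
  have e1 : ∀ s ∈ uIcc 0 t, x s 1 = x₀ 1 := by
    have hac := ac_apply (hx.1 t ht) 1
    obtain ⟨C, hC⟩ := hac.const_of_ae_hasDerivAt_zero (by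
      have hne : ∀ᵐ s : ℝ, s ≠ 0 := by
        simp [ae_iff]
      filter_upwards [hx.2, hne] with s hs hs0 hsm
      rw [uIcc_of_le ht] at hsm
      have hsp : 0 < s := lt_of_le_of_ne hsm.1 (Ne.symm hs0)
      have h1 := hasDerivAt_apply (hs hsp) 1
      simpa [fld] using h1)
    intro s hs
    rw [hC s hs, ← hC 0 hmem0, h0]
  have e2 : x t 2 = flow t x₀ u 2 := by
    have hac := (ac_apply (hx.1 t ht) 2).fun_sub (ac_apply (hf.1 t ht) 2)
    obtain ⟨C, hC⟩ := hac.const_of_ae_hasDerivAt_zero (by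
      have hne : ∀ᵐ s : ℝ, s ≠ 0 := by
        simp [ae_iff]
      filter_upwards [hx.2, hf.2, hne] with s hs hs' hs0 hsm
      have hsm' := hsm
      rw [uIcc_of_le ht] at hsm'
      have hsp : 0 < s := lt_of_le_of_ne hsm'.1 (Ne.symm hs0)
      have h1 := hasDerivAt_apply (hs hsp) 2
      have h2 := hasDerivAt_apply (hs' hsp) 2
      have h3 := h1.fun_sub h2
      refine h3.congr_deriv ?_
      simp [fld, flow, e0' s hsm, e1 s hsm])
    have h1 := hC t hmemt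
    have h2 := hC 0 hmem0
    have h3 : x 0 2 - flow 0 x₀ u 2 = 0 := by
      rw [h0]
      simp [flow]
    simp only at h1 h2
    rw [h3] at h2
    linarith
  ext i
  fin_cases i
  · simpa [flow] using e0' t hmemt
  · simpa [flow] using e1 t hmemt
  · exact e2

/-- `∫₀ᵗ e^{-r} u(r) dr`. -/
noncomputable def intU (u : ℝ → E 1) (t : ℝ) : ℝ := ∫ r in (0 : ℝ)..t, Real.exp (-r) * u r 0

lemma integral_exp_neg' (t : ℝ) : ∫ r in (0 : ℝ)..t, Real.exp (-r) = 1 - Real.exp (-t) := by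
  have h : ∀ r ∈ uIcc (0 : ℝ) t, HasDerivAt (fun r : ℝ => -Real.exp (-r)) (Real.exp (-r)) r := by
    intro r _
    have := ((hasDerivAt_neg r).exp).neg
    exact this.congr_deriv (by ring)
  rw [intervalIntegral.integral_eq_sub_of_hasDerivAt h
    ((Real.continuous_exp.comp continuous_neg).intervalIntegrable _ _)]
  simp
  ring

lemma int_formula {u : ℝ → E 1} (hu : Admissible ctl u) (c b : ℝ) {t : ℝ} (ht : 0 ≤ t) :
    ∫ r in (0 : ℝ)..t, c * Real.exp (-r) * (u r 0 - b) =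
      c * (intU u t - b * (1 - Real.exp (-t))) := by
  have h1 : IntervalIntegrable (fun r => Real.exp (-r) * u r 0) volume 0 t := by
    have := intervalIntegrable_ctl hu 1 0 ht
    simpa using this
  have h2 : IntervalIntegrable (fun r => b * Real.exp (-r)) volume 0 t :=
    ((Real.continuous_exp.comp continuous_neg).const_mul b).intervalIntegrable _ _
  have : ∀ r, c * Real.exp (-r) * (u r 0 - b) =
      c * (Real.exp (-r) * u r 0 - b * Real.exp (-r)) := by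
    intro r
    ring
  simp_rw [this]
  rw [intervalIntegral.integral_const_mul, intervalIntegral.integral_sub h1 h2,
    intervalIntegral.integral_const_mul, integral_exp_neg']
  rfl

lemma flow_eq {u : ℝ → E 1} (hu : Admissible ctl u) (x : E 3) {t : ℝ} (ht : 0 ≤ t) :
    flow t x u = !₂[x 0 * Real.exp (-t), x 1,
      x 2 + x 0 * (intU u t - x 1 * (1 - Real.exp (-t)))] := by
  unfold flow
  rw [int_formula hu _ _ ht]

lemma continuous_flow {u : ℝ → E 1} (hu : Admissible ctl u) {t : ℝ} (ht : 0 ≤ t) :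
    Continuous fun x => flow t x u := by
  simp_rw [flow_eq hu _ ht]
  fun_prop

lemma isSolutionMap_flow : IsSolutionMap fld ctl flow where
  isSolution x₀ u hu := isSolution_flow x₀ hu
  initial x₀ u hu := by
    rw [flow_eq hu x₀ le_rfl]
    ext i
    fin_cases i <;> simp [intU]
  unique x₀ u x hu hx h0 t ht := unique_flow hu hx h0 t ht
  continuous u hu t ht := continuous_flow hu ht

lemma continuous_fld : Continuous fun p : E 3 × E 1 => fld p.1 p.2 := by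
  unfold fld
  fun_prop

lemma infDist_Lam (s z : ℝ) {y : ℝ} (hy : y ∈ Icc (0 : ℝ) 1) :
    infDist (!₂[s, y, z] : E 3) Lam = √(s ^ 2 + z ^ 2) := by
  have hmem : (!₂[0, y, 0] : E 3) ∈ Lam := ⟨y, hy, rfl⟩
  apply le_antisymm
  · refine (infDist_le_dist_of_mem hmem).trans ?_
    rw [EuclideanSpace.dist_eq]
    simp [Fin.sum_univ_three, Real.dist_eq]
  · rw [le_infDist ⟨_, hmem⟩]
    rintro a ⟨y', -, rfl⟩
    rw [EuclideanSpace.dist_eq]
    apply Real.sqrt_le_sqrt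
    simp [Fin.sum_univ_three, Real.dist_eq]
    nlinarith [sq_nonneg (y - y')]

lemma infDist_flow {u : ℝ → E 1} (hu : Admissible ctl u) {y : ℝ} (hy : y ∈ Icc (0 : ℝ) 1)
    {t : ℝ} (ht : 0 ≤ t) :
    infDist (flow t !₂[1, y, 0] u) Lam =
      √(Real.exp (-t) ^ 2 + (intU u t - y * (1 - Real.exp (-t))) ^ 2) := by
  rw [flow_eq hu _ ht]
  simp only [Matrix.cons_val, one_mul, zero_add]
  exact infDist_Lam _ _ hy

lemma infDist_init {y : ℝ} (hy : y ∈ Icc (0 : ℝ) 1) : infDist (!₂[1, y, 0] : E 3) Lam = 1 := by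
  rw [infDist_Lam _ _ hy]
  simp

/-- Constant controls. -/
noncomputable def cst (a : ℝ) : ℝ → E 1 := fun _ => !₂[a]

lemma admissible_cst {a : ℝ} (ha : a ∈ Icc (0 : ℝ) 1) : Admissible ctl (cst a) :=
  ⟨measurable_const, Eventually.of_forall fun t _ => by simpa [cst, ctl] using ha⟩

lemma intU_cst (a t : ℝ) : intU (cst a) t = a * (1 - Real.exp (-t)) := by
  unfold intU cst
  simp only [Matrix.cons_val]
  rw [intervalIntegral.integral_mul_const, integral_exp_neg']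
  ring

lemma infDist_cst_le {a y t : ℝ} (ha : a ∈ Icc (0 : ℝ) 1) (hy : y ∈ Icc (0 : ℝ) 1)
    (ht : 0 ≤ t) : infDist (flow t !₂[1, y, 0] (cst a)) Lam ≤ Real.exp (-t) + |a - y| := by
  rw [infDist_flow (admissible_cst ha) hy ht, intU_cst]
  have he : 0 < Real.exp (-t) := Real.exp_pos _
  have he1 : Real.exp (-t) ≤ 1 := Real.exp_le_one_iff.mpr (by linarith)
  apply Real.sqrt_le_iff.mpr
  refine ⟨by positivity, ?_⟩
  have e : a * (1 - Real.exp (-t)) - y * (1 - Real.exp (-t)) = (a - y) * (1 - Real.exp (-t)) := by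
    ring
  rw [e, mul_pow, ← sq_abs (a - y)]
  have h1 : (1 - Real.exp (-t)) ^ 2 ≤ 1 := by nlinarith
  have h2 : 0 ≤ |a - y| ^ 2 := sq_nonneg _
  have h3 : 0 ≤ |a - y| := abs_nonneg _
  nlinarith [mul_nonneg he.le h3]

lemma isStabilizable_flow : IsStabilizable ctl flow zet Gam Lam := by
  rintro x₀ ⟨y, hy, rfl⟩
  refine ⟨cst y, admissible_cst hy, fun t ht => ?_⟩
  refine (infDist_cst_le hy hy ht).trans ?_
  rw [infDist_init hy]
  simp [zet]

/-- The finite set of constant controls on a grid of mesh `η`. -/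
noncomputable def grid (η : ℝ) : Set (ℝ → E 1) :=
  (fun j : ℕ => cst (j * η)) '' (Finset.range (⌊1 / η⌋₊ + 1) : Set ℕ)

lemma encard_grid (η : ℝ) : (grid η).encard ≤ ((⌊1 / η⌋₊ + 1 : ℕ) : ℕ∞) := by
  unfold grid
  refine (encard_image_le _ _).trans ?_
  rw [Set.encard_coe_eq_coe_finsetCard, Finset.card_range]

lemma grid_mem {η : ℝ} (hη : 0 < η) {j : ℕ} (hj : j ∈ Finset.range (⌊1 / η⌋₊ + 1)) :
    (j : ℝ) * η ∈ Icc (0 : ℝ) 1 := by
  refine ⟨by positivity, ?_⟩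
  rw [Finset.mem_range, Nat.lt_succ_iff] at hj
  have : (j : ℝ) ≤ 1 / η := (Nat.cast_le.mpr hj).trans (Nat.floor_le (by positivity))
  rwa [le_div_iff₀ hη] at this

lemma grid_admissible {η : ℝ} (hη : 0 < η) : ∀ u ∈ grid η, Admissible ctl u := by
  rintro u ⟨j, hj, rfl⟩
  exact admissible_cst (grid_mem hη hj)

lemma grid_approx {η : ℝ} (hη : 0 < η) {y : ℝ} (hy : y ∈ Icc (0 : ℝ) 1) :
    ∃ a ∈ Icc (0 : ℝ) 1, cst a ∈ grid η ∧ |a - y| ≤ η := by
  have hj : ⌊y / η⌋₊ ∈ Finset.range (⌊1 / η⌋₊ + 1) := by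
    rw [Finset.mem_range, Nat.lt_succ_iff]
    apply Nat.floor_le_floor
    exact div_le_div_of_nonneg_right hy.2 hη.le
  refine ⟨⌊y / η⌋₊ * η, grid_mem hη hj, ⟨_, hj, rfl⟩, ?_⟩
  have h1 : (⌊y / η⌋₊ : ℝ) * η ≤ y := by
    rw [← le_div_iff₀ hη]
    exact Nat.floor_le (div_nonneg hy.1 hη.le)
  have h2 : y < (⌊y / η⌋₊ + 1) * η := by
    rw [← div_lt_iff₀ hη]
    exact Nat.lt_floor_add_one _
  rw [abs_le]
  constructor <;> linarith

lemma coe_floor_le {η : ℝ} (hη : 0 < η) :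
    ((((⌊1 / η⌋₊ + 1 : ℕ) : ℕ∞)) : ℝ≥0∞) ≤ ENNReal.ofReal (1 / η + 1) := by
  have h1 : ((⌊1 / η⌋₊ : ℕ) : ℝ) ≤ 1 / η := Nat.floor_le (by positivity)
  have h2 : ((((⌊1 / η⌋₊ + 1 : ℕ) : ℕ∞)) : ℝ≥0∞) = ENNReal.ofReal ((⌊1 / η⌋₊ + 1 : ℕ) : ℝ) := by
    rw [ENNReal.ofReal_natCast]
    simp
  rw [h2]
  apply ENNReal.ofReal_le_ofReal
  push_cast
  linarith

lemma rPS_le {τ ε : ℝ} (hε : 0 < ε) :
    ((rPS ctl flow zet Gam Lam τ ε : ℕ∞) : ℝ≥0∞) ≤ ENNReal.ofReal (1 / ε + 1) := by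
  have hS : IsPracticallySpanning ctl flow zet Gam Lam τ ε (grid ε) := by
    refine ⟨grid_admissible hε, ?_⟩
    rintro x₀ ⟨y, hy, rfl⟩
    obtain ⟨a, ha, hmem, hay⟩ := grid_approx hε hy
    refine ⟨cst a, hmem, fun t ht => ?_⟩
    refine (infDist_cst_le ha hy ht.1).trans ?_
    simp only
    rw [infDist_init hy, zet]
    have := Real.exp_pos (-t)
    nlinarith
  have h1 : rPS ctl flow zet Gam Lam τ ε ≤ ((⌊1 / ε⌋₊ + 1 : ℕ) : ℕ∞) :=
    (iInf₂_le _ hS).trans (encard_grid ε)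
  exact (ENat.toENNReal_le.mpr h1).trans (coe_floor_le hε)

lemma rS_le {τ ε : ℝ} (hε : 0 < ε) :
    ((rS ctl flow zet Gam Lam τ ε : ℕ∞) : ℝ≥0∞) ≤
      ENNReal.ofReal (1 / (ε * Real.exp (-τ)) + 1) := by
  have hη : 0 < ε * Real.exp (-τ) := by positivity
  have hS : IsSpanning ctl flow zet Gam Lam τ ε (grid (ε * Real.exp (-τ))) := by
    refine ⟨grid_admissible hη, ?_⟩
    rintro x₀ ⟨y, hy, rfl⟩
    obtain ⟨a, ha, hmem, hay⟩ := grid_approx hη hy
    refine ⟨cst a, hmem, fun t ht => ?_⟩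
    refine (infDist_cst_le ha hy ht.1).trans ?_
    simp only
    rw [infDist_init hy, zet]
    have h1 : Real.exp (-τ) ≤ Real.exp (-t) := Real.exp_le_exp.mpr (by linarith [ht.2])
    nlinarith
  have h1 : rS ctl flow zet Gam Lam τ ε ≤ ((⌊1 / (ε * Real.exp (-τ))⌋₊ + 1 : ℕ) : ℕ∞) :=
    (iInf₂_le _ hS).trans (encard_grid _)
  exact (ENat.toENNReal_le.mpr h1).trans (coe_floor_le hη)

lemma one_le_rPS {τ ε : ℝ} :
    (1 : ℝ≥0∞) ≤ ((rPS ctl flow zet Gam Lam τ ε : ℕ∞) : ℝ≥0∞) := by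
  have : (1 : ℕ∞) ≤ rPS ctl flow zet Gam Lam τ ε := by
    refine le_iInf₂ fun S hS => ?_
    rw [one_le_encard_iff_nonempty]
    obtain ⟨u, hu, -⟩ := hS.2 !₂[1, 0, 0] ⟨0, ⟨le_rfl, zero_le_one⟩, rfl⟩
    exact ⟨u, hu⟩
  exact_mod_cast ENat.toENNReal_le.mpr this

lemma le_rS {τ ε : ℝ} (hε : 0 < ε) (hτ : 1 ≤ τ) :
    ENNReal.ofReal (1 / (5 * (1 + ε) * Real.exp (-τ))) ≤
      ((rS ctl flow zet Gam Lam τ ε : ℕ∞) : ℝ≥0∞) := by
  set η : ℝ := 5 * (1 + ε) * Real.exp (-τ) with hηdef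
  have hη : 0 < η := by positivity
  have hτ0 : 0 ≤ τ := by linarith
  have hexp : Real.exp (-τ) ≤ 1 / 2 := by
    have h1 : Real.exp (-τ) ≤ Real.exp (-1) := Real.exp_le_exp.mpr (by linarith)
    have h2 : Real.exp (-1) ≤ 1 / 2 := by
      rw [Real.exp_neg, one_div]
      apply inv_anti₀ (by norm_num)
      have := Real.add_one_le_exp (1 : ℝ)
      linarith
    linarith
  have key : ((⌊1 / η⌋₊ + 1 : ℕ) : ℕ∞) ≤ rS ctl flow zet Gam Lam τ ε := by
    refine le_iInf₂ fun S hS => ?_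
    have hgrid : ∀ k : Fin (⌊1 / η⌋₊ + 1), ((k : ℕ) : ℝ) * η ∈ Icc (0 : ℝ) 1 := fun k =>
      grid_mem hη (Finset.mem_range.mpr k.2)
    have hch : ∀ k : Fin (⌊1 / η⌋₊ + 1), ∃ u ∈ S,
        |intU u τ - ((k : ℕ) : ℝ) * η * (1 - Real.exp (-τ))| ≤ (1 + ε) * Real.exp (-τ) := by
      intro k
      obtain ⟨u, hu, hk⟩ := hS.2 !₂[1, ((k : ℕ) : ℝ) * η, 0] ⟨_, hgrid k, rfl⟩
      refine ⟨u, hu, ?_⟩
      have h1 := hk τ ⟨hτ0, le_rfl⟩
      rw [infDist_flow (hS.1 u hu) (hgrid k) hτ0, infDist_init (hgrid k), zet] at h1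
      have h2 : |intU u τ - ((k : ℕ) : ℝ) * η * (1 - Real.exp (-τ))| ≤
          √(Real.exp (-τ) ^ 2 + (intU u τ - ((k : ℕ) : ℝ) * η * (1 - Real.exp (-τ))) ^ 2) := by
        rw [← Real.sqrt_sq_eq_abs]
        apply Real.sqrt_le_sqrt
        have := sq_nonneg (Real.exp (-τ))
        linarith
      exact h2.trans h1
    choose U hUS hU using hch
    have hinj : Function.Injective U := by
      intro k l hkl
      by_contra hne
      have h1 := hU k
      have h2 := hU l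
      rw [hkl] at h1
      have h3 : |((k : ℕ) : ℝ) * η * (1 - Real.exp (-τ)) - ((l : ℕ) : ℝ) * η *
          (1 - Real.exp (-τ))| ≤ 2 * ((1 + ε) * Real.exp (-τ)) := by
        have := abs_sub_le (((k : ℕ) : ℝ) * η * (1 - Real.exp (-τ))) (intU (U l) τ)
          (((l : ℕ) : ℝ) * η * (1 - Real.exp (-τ)))
        rw [abs_sub_comm (((k : ℕ) : ℝ) * η * (1 - Real.exp (-τ))) (intU (U l) τ)] at this
        linarith
      have h4 : (1 : ℝ) ≤ |((k : ℕ) : ℝ) - ((l : ℕ) : ℝ)| := by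
        have h5 : ((k : ℕ) : ℤ) - ((l : ℕ) : ℤ) ≠ 0 := by
          intro h6
          apply hne
          ext
          omega
        have h6 := Int.one_le_abs h5
        exact_mod_cast h6
      have h5 : |((k : ℕ) : ℝ) * η * (1 - Real.exp (-τ)) - ((l : ℕ) : ℝ) * η *
          (1 - Real.exp (-τ))| = |((k : ℕ) : ℝ) - ((l : ℕ) : ℝ)| * (η * (1 - Real.exp (-τ))) := by
        have h6 : 0 ≤ η * (1 - Real.exp (-τ)) := mul_nonneg hη.le (by linarith)
        rw [← sub_mul, ← sub_mul, mul_assoc, abs_mul, abs_of_nonneg h6]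
      rw [h5] at h3
      have h6 : η * (1 / 2) ≤ η * (1 - Real.exp (-τ)) := by
        apply mul_le_mul_of_nonneg_left _ hη.le
        linarith
      have h7 : η * (1 / 2) ≤ 2 * ((1 + ε) * Real.exp (-τ)) := by
        have h8 : 0 ≤ η * (1 - Real.exp (-τ)) := mul_nonneg hη.le (by linarith)
        nlinarith
      have h8 : 0 < (1 + ε) * Real.exp (-τ) := by positivity
      rw [hηdef] at h7
      linarith
    have hrange : range U ⊆ S := by
      rintro _ ⟨k, rfl⟩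
      exact hUS k
    have hcard : (range U).encard = ((⌊1 / η⌋₊ + 1 : ℕ) : ℕ∞) := by
      rw [← Set.image_univ, hinj.encard_image, Set.encard_univ]
      simp
    rw [← hcard]
    exact encard_le_encard hrange
  have h1 : (((⌊1 / η⌋₊ + 1 : ℕ) : ℕ∞) : ℝ≥0∞) = ENNReal.ofReal ((⌊1 / η⌋₊ + 1 : ℕ) : ℝ) := by
    rw [ENNReal.ofReal_natCast]
    simp
  refine le_trans ?_ (ENat.toENNReal_le.mpr key)
  rw [h1]
  apply ENNReal.ofReal_le_ofReal
  push_cast
  exact (Nat.lt_floor_add_one _).le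

/-- Logarithmic growth rates. -/
lemma tendsto_log {c : ℝ} (hc : 0 < c) (a : ℝ) :
    Tendsto (fun τ : ℝ => ENNReal.log (ENNReal.ofReal (c * Real.exp (a * τ))) / (τ : EReal)) atTop
      (𝓝 (a : EReal)) := by
  have h1 : Tendsto (fun τ : ℝ => (Real.log c * τ⁻¹ + a)) atTop (𝓝 a) := by
    simpa using (tendsto_inv_atTop_zero.const_mul (Real.log c)).add_const a
  have h2 : Tendsto (fun τ : ℝ => ((Real.log c * τ⁻¹ + a : ℝ) : EReal)) atTop (𝓝 (a : EReal)) :=
    (continuous_coe_real_ereal.tendsto a).comp h1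
  refine h2.congr' ?_
  filter_upwards [eventually_gt_atTop 0] with τ hτ
  rw [ENNReal.log_ofReal_of_pos (by positivity), Real.log_mul hc.ne' (Real.exp_pos _).ne',
    Real.log_exp, ← EReal.coe_div]
  congr 1
  field_simp

lemma hPS_eq {ε : ℝ} (hε : 0 < ε) : hPS ctl flow zet Gam Lam ε = 0 := by
  have hN : (0 : ℝ) < 1 / ε + 1 := by positivity
  have h1 := tendsto_log one_pos 0
  have h2 := tendsto_log hN 0
  rw [← EReal.coe_zero]
  apply Tendsto.limsup_eq
  refine tendsto_of_tendsto_of_tendsto_of_le_of_le' h1 h2 ?_ ?_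
  · filter_upwards [eventually_gt_atTop 0] with τ hτ
    apply EReal.div_le_div_right_of_nonneg (by exact_mod_cast hτ.le)
    apply ENNReal.log_le_log
    rw [zero_mul, Real.exp_zero, mul_one, ENNReal.ofReal_one]
    exact one_le_rPS
  · filter_upwards [eventually_gt_atTop 0] with τ hτ
    apply EReal.div_le_div_right_of_nonneg (by exact_mod_cast hτ.le)
    apply ENNReal.log_le_log
    rw [zero_mul, Real.exp_zero, mul_one]
    exact rPS_le hε

lemma hS_eq {ε : ℝ} (hε : 0 < ε) : hS ctl flow zet Gam Lam ε = 1 := by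
  have hN : (0 : ℝ) < 1 / ε + 1 := by positivity
  have hN' : (0 : ℝ) < 1 / (5 * (1 + ε)) := by positivity
  have h1 := tendsto_log hN' 1
  have h2 := tendsto_log hN 1
  rw [← EReal.coe_one]
  apply Tendsto.limsup_eq
  refine tendsto_of_tendsto_of_tendsto_of_le_of_le' h1 h2 ?_ ?_
  · filter_upwards [eventually_ge_atTop 1] with τ hτ
    apply EReal.div_le_div_right_of_nonneg (by exact_mod_cast (by linarith : (0 : ℝ) ≤ τ))
    apply ENNReal.log_le_log
    refine le_trans (le_of_eq ?_) (le_rS hε hτ)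
    congr 1
    rw [Real.exp_neg, one_mul]
    have := (Real.exp_pos τ).ne'
    field_simp
  · filter_upwards [eventually_ge_atTop 1] with τ hτ
    apply EReal.div_le_div_right_of_nonneg (by exact_mod_cast (by linarith : (0 : ℝ) ≤ τ))
    apply ENNReal.log_le_log
    refine (rS_le hε).trans (ENNReal.ofReal_le_ofReal ?_)
    have h3 : 1 / (ε * Real.exp (-τ)) = 1 / ε * Real.exp τ := by
      rw [Real.exp_neg]
      field_simp
    rw [h3]
    have h4 : 1 ≤ Real.exp τ := Real.one_le_exp (by linarith)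
    rw [one_mul]
    linarith

/-- **Main theorem.** There is a stabilizable control system with compact control range,
compact `Γ, Λ` and a `𝒦ℒ`-function `ζ` whose practical stabilization entropy
`lim_{ε → 0} h_ps(ε)` equals `0` while its stabilization entropy `lim_{ε → 0} h_s(ε)` equals `1`. -/
theorem result : ∃ (d m : ℕ) (f : E d → E m → E d) (U : Set (E m))
    (φ : ℝ → E d → (ℝ → E m) → E d) (ζ : ℝ → ℝ → ℝ) (Γ Λ : Set (E d)),
    Continuous (fun p : E d × E m => f p.1 p.2) ∧ IsCompact U ∧ IsSolutionMap f U φ ∧ IsKL ζ ∧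
    IsCompact Γ ∧ IsCompact Λ ∧ Γ.Nonempty ∧ Λ.Nonempty ∧ IsStabilizable U φ ζ Γ Λ ∧
    ∃ hps hs : EReal, Tendsto (fun ε : ℝ => hPS U φ ζ Γ Λ ε) (𝓝[>] 0) (𝓝 hps) ∧
      Tendsto (fun ε : ℝ => hS U φ ζ Γ Λ ε) (𝓝[>] 0) (𝓝 hs) ∧ hps < hs := by
  refine ⟨3, 1, fld, ctl, flow, zet, Gam, Lam, continuous_fld, isCompact_ctl,
    isSolutionMap_flow, isKL_zet, isCompact_Gam, isCompact_Lam, ⟨_, 0, by simp, rfl⟩,
    ⟨_, 0, by simp, rfl⟩, isStabilizable_flow, 0, 1, ?_, ?_, by norm_num⟩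
  · refine tendsto_const_nhds.congr' ?_
    filter_upwards [self_mem_nhdsWithin] with ε hε
    exact (hPS_eq hε).symm
  · refine tendsto_const_nhds.congr' ?_
    filter_upwards [self_mem_nhdsWithin] with ε hε
    exact (hS_eq hε).symm

end Pool.Agent.Results.MP_395e41_an.EntropyGap
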